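import Pool.Agent.H37.LES.Seq

/-! # Global weak solutions of the Gradient (Taylor) LES model -/

open MeasureTheory Set Filter Topology
open scoped ContDiff ENNReal

namespace Pool.Agent.Results.MP_544ca6_an.WeakExistence

open H36.MHD H37.LES

/-- For every bounded open `Ω` in `ℝ³`, all `Re, δ, T > 0`, every initial velocity `w₀` in
`H¹₀(Ω)` with divergence zero (`G₀` is its weak gradient) and every force `f` that is integrable on
`Ω × (0,T)`, the Gradient LES model has a weak solution on `(0,T)`. -/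
theorem result (Ω : Set V3) (hΩ : IsOpen Ω) (hb : Bornology.IsBounded Ω) (Re δ T : ℝ)
    (hRe : 0 < Re) (hδ : 0 < δ) (hT : 0 < T) (w₀ : V3 → V3) (G₀ : V3 → Fin 3 → Fin 3 → ℝ)
    (hw₀ : InV Ω w₀ G₀) (f : ℝ → V3 → V3)
    (hf : Integrable (fun z : ℝ × V3 => f z.1 z.2) (volume.restrict (cyl Ω T))) :
    ∃ w : ℝ → V3 → V3, IsWeakSolution Ω Re δ T w₀ f w :=
  exists_weak_of seqStatement limStatement Ω hΩ hb Re δ T hRe hδ hT w₀ G₀ hw₀ f hf

end Pool.Agent.Results.MP_544ca6_an.WeakExistence
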